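import Pool.Agent.P.MP_8b60db_ag.Main

/-! The counterexample over discretely valued fields, and lengths of zero schemes. -/

namespace Pool.Agent.P.MP_8b60db_ag.G

open Polynomial TrivSqZeroExt Geom Main IsDiscreteValuationRing
open scoped TensorProduct

theorem aniso {F : Type} [Field F] (h5 : (5 : F) = 0) (h2 : ∀ x : F, x ^ 2 ≠ 2) {a b c d : F}
    (h : Nm a b c d = 0) : a = 0 ∧ b = 0 ∧ c = 0 ∧ d = 0 := by
  have key : ∀ x y : F, x ^ 2 - 2 * y ^ 2 = 0 → x = 0 ∧ y = 0 := fun x y e => by
    have hy : y = 0 := by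
      by_contra hy
      refine h2 (x / y) ?_
      field_simp
      linear_combination e
    exact ⟨by simpa [hy] using e, hy⟩
  obtain ⟨h3, h4⟩ := key _ _ h
  obtain ⟨h6, h7⟩ := key (a ^ 2 - 2 * c ^ 2) (2 * (b ^ 2 - 2 * d ^ 2)) (by
    linear_combination (a ^ 2 + 2 * c ^ 2 + 4 * b * d) * h3 -
      2 * (2 * a * c + b ^ 2 + 2 * d ^ 2) * h4 - 2 * (b ^ 2 - 2 * d ^ 2) ^ 2 * h5)
  have t : (2 : F) ≠ 0 := fun e => h2 0 (by simp [e])
  obtain ⟨h8, h9⟩ := key _ _ h6
  obtain ⟨h10, h11⟩ := key _ _ ((mul_eq_zero.1 h7).resolve_left t)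
  exact ⟨h8, h10, h9, h11⟩

theorem good_dvr (O : Type) [CommRing O] [IsDomain O] [IsDiscreteValuationRing O]
    (h5 : ∃ n : ℕ, Odd n ∧ addVal O 5 = n) (h2 : ∀ x : O, IsUnit (x ^ 2 - 2)) :
    Good O fun x => ((addVal O x).toNat : ℤ) := by
  obtain ⟨n, hn, h5⟩ := h5
  obtain ⟨π, hπ⟩ := exists_irreducible O
  have hm : ∀ a b : O, a ≠ 0 → b ≠ 0 →
      (addVal O (a * b)).toNat = (addVal O a).toNat + (addVal O b).toNat := fun a b ha hb => by
    rw [addVal_mul, ENat.toNat_add (mt addVal_eq_top_iff.1 ha) (mt addVal_eq_top_iff.1 hb)]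
  have hp : ∀ x : O, x ≠ 0 → (addVal O (π * x)).toNat = 1 + (addVal O x).toNat := fun x hx => by
    rw [hm π x hπ.ne_zero hx, addVal_uniformizer hπ]
    rfl
  refine ⟨fun a b ha hb => by rw [hm a b ha hb, Nat.cast_add], ?_, ?_, fun a b c d h0 => ?_⟩
  · have : IsUnit (2 : O) := by simpa using h2 0
    rw [addVal_eq_zero_iff.2 this]
    rfl
  · rw [h5, ENat.toNat_natCast]
    exact hn.natCast
  obtain ⟨k, a', b', c', d', h1, h3⟩ := GoodAux.exists_prim π (fun x => (addVal O x).toNat)
    (fun x => by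
      by_cases hx : x = 0
      · simp [hx]
      · rw [hp x hx]
        omega)
    (fun x hx => by rw [hp x hx]; omega) _ a b c d (Nat.lt_succ_self _) h0
  have hz : ∀ x : O, IsLocalRing.residue O x = 0 ↔ π ∣ x := fun x => by
    rw [IsLocalRing.residue_eq_zero_iff, hπ.maximalIdeal_eq, Ideal.mem_span_singleton]
  have hu : IsUnit (Nm a' b' c' d') := by
    by_contra hu
    refine h3 ?_
    simp only [← hz]
    refine aniso ?_ (fun x e => ?_) ?_
    · rw [← map_ofNat (IsLocalRing.residue O), IsLocalRing.residue_eq_zero_iff]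
      intro e
      rw [addVal_eq_zero_iff.2 e] at h5
      rw [← Nat.cast_injective (R := ℕ∞) h5] at hn
      simp at hn
    · obtain ⟨x, rfl⟩ := IsLocalRing.residue_surjective x
      refine ((h2 x).map (IsLocalRing.residue O)).ne_zero ?_
      rw [map_sub, map_pow, map_ofNat, e, sub_self]
    · rw [← GoodAux.Nm_map, IsLocalRing.residue_eq_zero_iff]
      exact hu
  rw [h1]
  refine ⟨mul_ne_zero (pow_ne_zero _ hπ.ne_zero) hu.ne_zero, k, ?_⟩
  rw [addVal_mul, hπ.addVal_pow, addVal_eq_zero_iff.2 hu, add_zero, ENat.toNat_natCast]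
  push_cast
  rfl

variable {k : Type} [Field k] [CharZero k]

omit [CharZero k] in
theorem good_mv {v : k → ℤ} (h : Good k v) (n : ℕ) : ∃ v, Good (MvPolynomial (Fin n) k) v := by
  induction n with
  | zero => exact ⟨_, GoodAux.good_equiv h (MvPolynomial.isEmptyRingEquiv k (Fin 0))⟩
  | succ n ih =>
    obtain ⟨v, h⟩ := ih
    exact ⟨_, GoodAux.good_equiv (GoodAux.good_poly h) (MvPolynomial.finSuccEquiv k n).toRingEquiv⟩

theorem fieldEx {v : k → ℤ} (h : Good k v) (σ : Type) [Fintype σ] [DecidableEq σ] :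
    ∃ (K : Type) (_ : Field K) (j : k →+* K) (w : K → ℤ) (lam : σ → K)
      (δ : σ → K →+* DualNumber K), Good K w ∧ (∀ α x, (δ α x).fst = x) ∧
      (∀ α x, (δ α (j x)).snd = 0) ∧ ∀ α α', (δ α (lam α')).snd = if α = α' then 1 else 0 := by
  obtain ⟨v, h⟩ := good_mv h (Fintype.card σ)
  let K := FractionRing (MvPolynomial σ k)
  obtain ⟨w, hw⟩ := GoodAux.good_frac (GoodAux.good_equiv h
    (MvPolynomial.renameEquiv k (Fintype.equivFin σ)).toRingEquiv) K
  let j : k →+* K := (algebraMap (MvPolynomial σ k) K).comp MvPolynomial.C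
  let g : σ → MvPolynomial σ k →+* DualNumber K := fun α =>
    MvPolynomial.eval₂Hom ((algebraMap K (DualNumber K)).comp j) fun β =>
      (algebraMap (MvPolynomial σ k) K (MvPolynomial.X β), if α = β then 1 else 0)
  have gC : ∀ α x, g α (MvPolynomial.C x) = inl (j x) := fun α x => MvPolynomial.eval₂Hom_C _ _ x
  have gX : ∀ α β, g α (MvPolynomial.X β) =
      (algebraMap (MvPolynomial σ k) K (MvPolynomial.X β), if α = β then 1 else 0) :=
    fun α β => MvPolynomial.eval₂Hom_X' _ _ β
  have hg : ∀ α x, (g α x).fst = algebraMap (MvPolynomial σ k) K x := fun α =>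
    RingHom.congr_fun (f := (TrivSqZeroExt.fstHom K K K).toRingHom.comp (g α))
      (MvPolynomial.ringHom_ext (fun r => congrArg fst (gC α r)) fun β => congrArg fst (gX α β))
  have hu : ∀ α (y : nonZeroDivisors (MvPolynomial σ k)), IsUnit (g α y) := fun α y => by
    rw [TrivSqZeroExt.isUnit_iff_isUnit_fst, hg]
    exact IsLocalization.map_units K y
  refine ⟨K, inferInstance, j, w, fun β => algebraMap (MvPolynomial σ k) K (MvPolynomial.X β),
    fun α => IsLocalization.lift (hu α), hw, fun α => ?_, fun α x => ?_, fun α β => ?_⟩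
  · refine RingHom.congr_fun
      (f := (TrivSqZeroExt.fstHom K K K).toRingHom.comp (IsLocalization.lift (hu α)))
      (g := RingHom.id K) (IsLocalization.ringHom_ext (nonZeroDivisors (MvPolynomial σ k)) ?_)
    refine RingHom.ext fun x => ?_
    simpa using hg α x
  · exact congrArg snd ((IsLocalization.lift_eq (hu α) _).trans (gC α x))
  · exact congrArg snd ((IsLocalization.lift_eq (hu α) _).trans (gX α β))

theorem no_data {v : k → ℤ} (hk : Good k v) {A0 : Type} [CommRing A0] [Algebra k A0]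
    {u w : Fin 3 → A0} (H : IsA k u w) {a : Fin 7 → A0} {f : A0} {β : Fin 7 → Fin 7 → A0}
    (hd : Data u w a f β) : False := by
  obtain ⟨K, _, j, v, lam, δ, hv, hδ1, hδ0, hδ2⟩ := fieldEx hk (Fin 7 × Fin 7)
  have : CharZero K := charZero_of_injective_ringHom j.injective
  obtain ⟨A, _, _, _, u', w', H', -⟩ := ringThm K
  obtain ⟨φ, h00, hu, hw⟩ := H.lift A ((algebraMap K A).comp j) u' w' H'.rel
  have hd' := data_map φ hd
  simp only [hu, hw] at hd'
  obtain ⟨D, hD⟩ := ham_of H'
  let m : DualNumber K →ₐ[K] DualNumber A :=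
    DualNumber.lift ⟨(Algebra.ofId K _, DualNumber.eps), DualNumber.eps_mul_eps,
      fun _ => DualNumber.commute_eps_left _⟩
  have hm1 : ∀ x, (m x).fst = algebraMap K A x.fst := fun x => by
    simp [m, DualNumber.lift_apply_apply, Algebra.ofId_apply, algebraMap_eq_inl']
  have hm2 : ∀ x, (m x).snd = algebraMap K A x.snd := fun x => by
    simp [m, DualNumber.lift_apply_apply, Algebra.ofId_apply, algebraMap_eq_inl']
  have key : ∀ α, ∃ d : Derivation ℤ A A, (∀ x, d (φ x) = 0) ∧
      ∀ α', d (algebraMap K A (lam α')) = if α = α' then 1 else 0 := by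
    intro α
    obtain ⟨ψ, h0, h1, h2⟩ := H'.lift (DualNumber A) (m.toRingHom.comp (δ α))
      (fun j => inlHom A A (u' j)) (fun j => inlHom A A (w' j)) (rel_map _ H'.rel)
    have hf : ∀ a, (ψ a).fst = a :=
      hom_ext H'.gen (φ := (fstHom A A A).toRingHom.comp ψ) (ψ := RingHom.id A)
        (fun k => by simp [h0, hm1, hδ1]) (fun j => by simp [h1]) (fun j => by simp [h2])
    refine ⟨derOf ℤ ψ hf (fun k => by simp), fun x => ?_, fun α' => ?_⟩
    · have := hom_ext H.gen (φ := ψ.comp φ) (ψ := (inlHom A A).comp φ)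
        (fun x => TrivSqZeroExt.ext (by simp [h00, h0, hm1, hδ1]) (by simp [h00, h0, hm2, hδ0]))
        (fun j => by simp [hu, h1]) (fun j => by simp [hw, h2]) x
      rw [derOf_apply]
      simpa using congrArg snd this
    · rw [derOf_apply, h0]
      simp only [RingHom.comp_apply, AlgHom.toRingHom_eq_coe, RingHom.coe_coe, hm2, hδ2]
      split_ifs <;> simp
  choose pd h1 h2 using key
  obtain ⟨B, _, _, _, u2, w2, f2, d, β2, c2, hC⟩ := geomThm cotThm K A (Arith.five_not_sq hv)
    u' w' H'.rel H'.gen D hD (ind_of H') (Fin 7) _ _ _ hd' (fun α => algebraMap K A (lam α)) pd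
    (fun α i => by rw [← hu, h1]) (fun α i => by rw [← hw, h1]) (fun α i => h1 _ _)
    (fun α => h1 _ _) (fun α i j => h1 _ _) h2
  exact arithThm noethThm (fiberThm normThm gramThm) (infThm goodTc normThm) diffThm finThm
    K v hv B u2 w2 f2 _ d β2 c2 hC

theorem geom_integral {A0 : Type} [CommRing A0] [Algebra k A0] {u w : Fin 3 → A0}
    (H : IsA k u w) (K : Type) [Field K] [Algebra k K] : IsDomain (K ⊗[k] A0) := by
  have : CharZero K := charZero_of_injective_algebraMap (algebraMap k K).injective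
  obtain ⟨A, _, _, _, u', w', H', -⟩ := ringThm K
  let : Algebra k A := ((algebraMap K A).comp (algebraMap k K)).toAlgebra
  have : IsScalarTower k K A := IsScalarTower.of_algebraMap_eq fun _ => rfl
  obtain ⟨φ, h0, hu, hw⟩ := H.lift A (algebraMap k A) u' w' H'.rel
  let φ' : A0 →ₐ[k] A := { φ with commutes' := h0 }
  let F : K ⊗[k] A0 →ₐ[K] A :=
    Algebra.TensorProduct.lift (Algebra.ofId K A) φ' fun _ _ => Commute.all _ _
  let j : A0 →ₐ[k] K ⊗[k] A0 := Algebra.TensorProduct.includeRight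
  obtain ⟨g, g0, gu, gw⟩ := H'.lift (K ⊗[k] A0) (algebraMap K _) _ _ (rel_map j.toRingHom H.rel)
  have hg : ∀ x, g (φ x) = j x :=
    hom_ext H.gen (φ := g.comp φ) (ψ := j.toRingHom)
      (fun x => by
        rw [RingHom.comp_apply, h0, IsScalarTower.algebraMap_apply k K A, g0,
          ← IsScalarTower.algebraMap_apply]
        exact (j.commutes x).symm)
      (fun i => by rw [RingHom.comp_apply, hu, gu]) (fun i => by rw [RingHom.comp_apply, hw, gw])
  have hgF : ∀ x, g (F x) = x := by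
    intro x
    induction x using TensorProduct.induction_on with
    | zero => simp
    | tmul k a =>
      have : F (k ⊗ₜ a) = algebraMap K A k * φ a := rfl
      rw [this, map_mul, g0, hg]
      simp [j]
    | add x y hx hy => rw [map_add, map_add, hx, hy]
  exact (Function.LeftInverse.injective hgF).isDomain F.toRingHom

theorem main {v : k → ℤ} (hk : Good k v) : ∃ (A : Type) (_ : CommRing A) (_ : Algebra k A),
    Algebra.Smooth k A ∧ (∀ (K : Type) [Field K] [Algebra k K], IsDomain (K ⊗[k] A)) ∧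
    ringKrullDim A = 3 ∧
    ∃ (E : Type) (_ : AddCommGroup E) (_ : Module A E),
      Module.Finite A E ∧ Module.Projective A E ∧
      (∀ p : PrimeSpectrum A, Module.rankAtStalk E p = 3) ∧
      (∃ (s : E) (P : Ideal A) (h : A), P.IsPrime ∧ ringKrullDim (A ⧸ P) = 1 ∧ h ∉ P ∧
        LinearMap.range (Module.Dual.eval A E s) = P ⊔ Ideal.span {h}) ∧
      ∀ (E' : Type) [AddCommGroup E'] [Module A E'], IsEmpty (E ≃ₗ[A] E' × A) := by
  obtain ⟨A, _, _, _, u, w, H, hs, hdim, hP, hP1, hf⟩ := ringThm k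
  have hI : I0 u w ≠ ⊤ := fun h =>
    one_ne_zero (Main.ind_of H 1 0 0 0 (by rw [h]; trivial)).1
  let : Algebra ℚ A := ((algebraMap k A).comp (algebraMap ℚ k)).toAlgebra
  obtain ⟨E, _, _, hfin, hproj, hrk, s, hs', hq⟩ := bundleThm A u w H.rel hI
  refine ⟨A, inferInstance, inferInstance, hs, geom_integral H, hdim, E, inferInstance,
    inferInstance, hfin, hproj, fun p => ?_, ⟨s, P0 u w, w 0 - u 0, hP, hP1, hf,
      Ideal.ext fun x => (hs' x).symm⟩, fun E' _ _ => ⟨fun e => ?_⟩⟩
  · rw [← Ideal.finrank_fiber_eq_rankAtStalk p.asIdeal, Ideal.finrank_fiber_eq_finrank, hrk]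
  · obtain ⟨a, f, β, hd⟩ := hq (e.symm (0, 1)) ((LinearMap.snd A E' A).comp e.toLinearMap)
      (by simp)
    exact no_data hk H hd

/-- The divisor of a nonzero function on an integral curve is a finite cycle. -/
theorem cycle_div {A : Type} [CommRing A] [IsNoetherianRing A] {P : Ideal A} (hP : P.IsPrime)
    (h1 : ringKrullDim (A ⧸ P) = 1) {h : A} (hh : h ∉ P) :
    ∃ z : MaximalSpectrum A →₀ ℤ, ∀ m : MaximalSpectrum A, ∃ n : ℕ,
      Module.length (Localization.AtPrime m.asIdeal) (Localization.AtPrime m.asIdeal ⧸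
        (P ⊔ Ideal.span {h}).map (algebraMap A (Localization.AtPrime m.asIdeal))) = n ∧
      z m = n := by
  set I := P ⊔ Ideal.span {h}
  have hd : Ring.KrullDimLE 1 (A ⧸ P) := Ring.krullDimLE_iff.2 h1.le
  have hmin : ∀ m : MaximalSpectrum A, I ≤ m.asIdeal → m.asIdeal ∈ I.minimalPrimes := by
    refine fun m hm => ⟨⟨m.isMaximal.isPrime, hm⟩, fun Q hQ hle => ?_⟩
    have := hQ.1
    have hPQ : RingHom.ker (Ideal.Quotient.mk P) ≤ Q := by
      rw [Ideal.mk_ker]
      exact le_sup_left.trans hQ.2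
    have := Ideal.map_isPrime_of_surjective Ideal.Quotient.mk_surjective hPQ
    have h2 : (Q.map (Ideal.Quotient.mk P)).IsMaximal :=
      Ideal.isMaximal_of_isPrime_of_ne_bot _ fun e => hh (Ideal.Quotient.eq_zero_iff_mem.1
        (e.le (Ideal.mem_map_of_mem _ (hQ.2 (Ideal.mem_sup_right (Ideal.subset_span rfl))))))
    have h3 := Ideal.comap_isMaximal_of_surjective _ Ideal.Quotient.mk_surjective (H := h2)
    rw [Ideal.comap_map_of_surjective _ Ideal.Quotient.mk_surjective, ← RingHom.ker_eq_comap_bot,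
      sup_eq_left.2 hPQ] at h3
    exact (h3.eq_of_le m.isMaximal.ne_top hle).ge
  let l : MaximalSpectrum A → ℕ∞ := fun m => Module.length (Localization.AtPrime m.asIdeal)
    (Localization.AtPrime m.asIdeal ⧸ I.map (algebraMap A (Localization.AtPrime m.asIdeal)))
  have h0 : ∀ m : MaximalSpectrum A, ¬ I ≤ m.asIdeal → l m = 0 := fun m hm => by
    obtain ⟨x, hx, hx'⟩ := Set.not_subset.1 hm
    rw [Module.length_eq_zero_iff, Ideal.Quotient.subsingleton_iff]
    exact Ideal.eq_top_of_isUnit_mem _ (Ideal.mem_map_of_mem _ hx)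
      (IsLocalization.map_units _ (⟨x, hx'⟩ : m.asIdeal.primeCompl))
  have hl : ∀ m, l m ≠ ⊤ := fun m => by
    by_cases hm : I ≤ m.asIdeal
    · have := IsLocalRing.quotient_artinian_of_mem_minimalPrimes_of_isLocalRing
        (I.map (algebraMap A (Localization.AtPrime m.asIdeal))) (by
          rw [IsLocalization.minimalPrimes_map m.asIdeal.primeCompl, Set.mem_preimage,
            Localization.AtPrime.under_maximalIdeal]
          exact hmin m hm)
      simp only [l]
      rw [Module.length_eq_of_surjective (R := Localization.AtPrime m.asIdeal ⧸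
        I.map (algebraMap A (Localization.AtPrime m.asIdeal))) Ideal.Quotient.mk_surjective]
      exact Module.length_ne_top
    · rw [h0 m hm]
      exact ENat.zero_ne_top
  refine ⟨Finsupp.ofSupportFinite (fun m => ((l m).toNat : ℤ)) ?_,
    fun m => ⟨(l m).toNat, (ENat.natCast_toNat (hl m)).symm, rfl⟩⟩
  refine ((Ideal.finite_minimalPrimes_of_isNoetherianRing A I).preimage
    (f := MaximalSpectrum.asIdeal) fun _ _ _ _ e => MaximalSpectrum.ext e).subset fun m hm => ?_
  refine hmin m (by_contra fun e => hm ?_)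
  simp [h0 m e]

end Pool.Agent.P.MP_8b60db_ag.G
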